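import Mathlib
import Pool.Agent.Run7.h258.AS.Main2

/-!
# Hilbertian fields: embedding problems with solvable Hall sections in the kernels

Let `K` be any Hilbertian field, `L` a finite Galois extension of `K` and
`Gal(L/K) = W 0 ← W 1 ← W 2 ← ...` a sequence of split epimorphisms of finite groups whose kernels
are in the class `Ker K` (file `Pool/Agent/Run7/h258/AS/Defs.lean`), the smallest class of finite
groups which contains the trivial group, and contains `N` if it contains `N / D` for a characteristic
subgroup `D` of `N` such that
* `D` is solvable, and for all primes `p` different from the characteristic of `K` the Sylow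
  `p`-subgroups of `D` are abelian and `p` does not divide both `|D|` and `[N : D]`, or
* `D` is in the class `Univ` (file `Pool/Agent/N600/UK/Defs.lean`) of groups with trivial centre,
  built from wreath products and complete groups.
There is no condition on the actions on the kernels. Then `L` is contained in a Galois extension of
`K` whose group is the inverse limit of the `W i`, compatibly with restriction to `L`. The case
`W 1 = W 2 = ...` says that every finite split embedding problem over `K` with such a kernel has a
proper solution (`finite_case`), for example with a solvable kernel which has abelian Sylow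
subgroups for all primes different from the characteristic (`solvable_case`).

The proof: let `A` be the last nontrivial term of the derived series of `D`, `p` a prime divisor of
its order and `S` the `p`-part of `A`. If `p` is not the characteristic then `S` has a complement in
the extension `X` of `W i` by `N`: by transfer there is a retraction of a Sylow subgroup of `D` onto
`S` which commutes with the action of a Sylow subgroup of `X`, and this gives a crossed homomorphism
which is extended to `X` as in the theorem of Gaschuetz.
-/

set_option autoImplicit false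

open Run7.h258.AS (Ker AbelianSylow)

namespace Pool.Agent.Results.MP_e9d732_al.AbelianSylowKernels

/-- `K` is Hilbertian, in the words of the frozen statement `S03429`. -/
def Hilbertian (K : Type) [Field K] : Prop :=
  ∀ (f : Polynomial (Polynomial K)), f.Monic → Irreducible f →
    (f.map (algebraMap (Polynomial K) (FractionRing (Polynomial K)))).Separable →
    ∀ g : Polynomial K, g ≠ 0 →
      ∃ a : K, g.eval a ≠ 0 ∧ Irreducible (f.map (Polynomial.evalRingHom a))

/-- The homomorphism `π` has a homomorphic section. -/
def HasSection {W W' : Type} [Group W] [Group W'] (π : W' →* W) : Prop :=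
  ∃ s : W →* W', ∀ w, π (s w) = w

/-- The inverse limit of the sequence `W 0 ← W 1 ← W 2 ← ...`: the group of all sequences `x` with
`π i (x (i + 1)) = x i`. -/
def InvLim {W : ℕ → Type} [∀ i, Group (W i)] (π : ∀ i, W (i + 1) →* W i) :
    Subgroup (∀ i, W i) where
  carrier := {x | ∀ i, π i (x (i + 1)) = x i}
  one_mem' := fun i => map_one (π i)
  mul_mem' := fun {x y} hx hy i => by
    change π i (x (i + 1) * y (i + 1)) = x i * y i
    rw [map_mul, hx i, hy i]
  inv_mem' := fun {x} hx i => by
    change π i (x (i + 1))⁻¹ = (x i)⁻¹
    rw [map_inv, hx i]

/-- The embedding problem over `K` given by the finite Galois extension `L` of `K` and the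
projection `x ↦ e₀ (x 0)` of the inverse limit of the `W i` to `Gal(L/K)` has a proper solution:
there are a Galois extension `F` of `K` containing `L` and an isomorphism `γ` of `Gal(F/K)` with the
inverse limit, all of whose components are continuous (have open kernel), such that the action on
`L` is `σ ↦ e₀ (component of γ σ in W 0)`. -/
def HasProperSolution (K L : Type) [Field K] [Field L] [Algebra K L] {W : ℕ → Type}
    [∀ i, Group (W i)] (π : ∀ i, W (i + 1) →* W i) (e₀ : W 0 ≃* (L ≃ₐ[K] L)) : Prop :=
  ∃ (F : Type) (_ : Field F) (_ : Algebra K F) (_ : Algebra L F) (_ : IsScalarTower K L F)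
    (_ : IsGalois K F) (γ : (F ≃ₐ[K] F) ≃* InvLim π),
    (∀ i, IsOpen {σ : F ≃ₐ[K] F | (γ σ).1 i = 1}) ∧
    ∀ (σ : F ≃ₐ[K] F) (x : L), σ (algebraMap L F x) = algebraMap L F (e₀ ((γ σ).1 0) x)

/-- The case of finite split embedding problems, in the form of the question. -/
theorem finite_case (K : Type) [Field K] (hK : Hilbertian K) (L : Type) [Field L] [Algebra K L]
    [FiniteDimensional K L] [IsGalois K L] (G : Type) [Group G] [Finite G]
    (α : G →* (L ≃ₐ[K] L)) (hα : HasSection α) (h : Ker K α.ker) :
    ∃ (F : Type) (_ : Field F) (_ : Algebra K F) (_ : Algebra L F)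
          (_ : IsScalarTower K L F),
          FiniteDimensional K F ∧ IsGalois K F ∧
          ∃ γ : (F ≃ₐ[K] F) ≃* G, ∀ σ : F ≃ₐ[K] F, α (γ σ) = σ.restrictNormal L := by
  obtain ⟨s, hs⟩ := hα
  exact Pool.Agent.TH59.WX.hil_of_reg K L G hK α
    (Run7.h258.AS.ker_split α s hs h ⟨MulEquiv.refl _⟩)

/-- The case of solvable kernels. -/
theorem solvable_case (K : Type) [Field K] (hK : Hilbertian K) (L : Type) [Field L] [Algebra K L]
    [FiniteDimensional K L] [IsGalois K L] (G : Type) [Group G] [Finite G]
    (α : G →* (L ≃ₐ[K] L)) (hα : HasSection α) (h : AbelianSylow K α.ker) :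
    ∃ (F : Type) (_ : Field F) (_ : Algebra K F) (_ : Algebra L F)
          (_ : IsScalarTower K L F),
          FiniteDimensional K F ∧ IsGalois K F ∧
          ∃ γ : (F ≃ₐ[K] F) ≃* G, ∀ σ : F ≃ₐ[K] F, α (γ σ) = σ.restrictNormal L :=
  finite_case K hK L G α hα (Ker.of_abelianSylow h)

end Pool.Agent.Results.MP_e9d732_al.AbelianSylowKernels

open Pool.Agent.Results.MP_e9d732_al.AbelianSylowKernels in
theorem Pool.Agent.Results.MP_e9d732_al.AbelianSylowKernels.result :
    ∀ (K : Type) [Field K], Hilbertian K → ∀ (L : Type) [Field L] [Algebra K L]
      [FiniteDimensional K L] [IsGalois K L] (W : ℕ → Type) [∀ i, Group (W i)]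
      [∀ i, Finite (W i)] (π : ∀ i, W (i + 1) →* W i) (e₀ : W 0 ≃* (L ≃ₐ[K] L)),
      (∀ i, HasSection (π i)) → (∀ i, Ker K (π i).ker) → HasProperSolution K L π e₀ := by
  intro K _ hK L _ _ _ _ W _ _ π e₀ hs hg
  exact Run7.h258.AS.ker_tower K hK W π hs hg L e₀
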