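import Mathlib
import Pool.Agent.Run7.h456.IG.SPL

/-!
# Real and locally cyclic solutions of split embedding problems

Let `K` be any field.  Every finite split embedding problem `α : G → Gal(L/K)` has, for every `k`, a
cover: a finite split embedding problem `α ∘ π : H → G → Gal(L/K)`, `ker π` abelian, such that a
proper solution of `α ∘ π` gives a proper solution `F` of `α` with the following properties, where
`Ω` is any algebraically closed field containing `F`:

1. every commutative group of automorphisms of `Ω` over `L` induces a CYCLIC group of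
   automorphisms of `F`; so `F M / M` is cyclic for every field `M ⊇ L` with an abelian absolute
   Galois group (for example `C((x))((y))`, or real closed fields);
2. if `x z x⁻¹ = z ^ r` for automorphisms `x`, `z` of `Ω` over `L`, then the group of automorphisms
   of `F` over `L` induced by the group generated by `x` and `z` has cyclic Sylow subgroups (this
   applies to the tame Galois groups of local fields);
3. involutions of `Ω` over `L` are trivial on `F`: all orderings of `L` extend to `F`;
4. if `K` is a number field, then for every prime ideal of `F` over `p` and all `l ≠ p` the Sylow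
   `l`-subgroups of its decomposition group over `L` are cyclic, and if `l` divides its ramification
   index over `L`, then `l ^ k` divides `N ^ n - 1`, where `N` is the norm of the prime ideal of `L`
   below and `n = [F : L]`.

Hence for every field `K`, Hilbertian or not: all finite split embedding problems over `K` are
solvable if and only if all of them have such solutions, for all `k`.

Outline of the proof.  Let `s` be a section of `α`, `N = ker α`, and let `Γ = Gal(L/K)` act on `N`
by conjugation with the `s γ`.  The cover `Cov N m` of `N` (`m = |N| ^ (k + 3)`) consists of the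
pairs `(v, g)`, `g ∈ N`, where `v` is a family `(v x)`, `x ∈ N`, of elements of the group ring of
`N` over `ZMod m` with `∑ x, (x - 1) v x = g - 1`.  It is functorial in `N`, so `Γ` acts on it, and
`H = Cov N m ⋊ Γ → N ⋊ Γ = G` is the cover.  In `Cov N m` commutative subgroups and metacyclic
subgroups of prime power order have cyclic images in `N` (`abelian_cyclic`, `metacyclic_cyclic`),
involutions have trivial images (`order_grows`); see the outline in
`Pool/Agent/Results/MP_dadaab_nt/TotallyRealForFree.lean`.  If `F'` is a solution of `α ∘ π`, let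
`F` be the fixed field of the elements of the Galois group which `π` maps to `1`.  Then
`Gal(F'/L) = Cov N m` and `Gal(F/L) = N`.
-/

set_option autoImplicit false

open scoped NumberField

namespace Pool.Agent.Results.MP_e9d732_al.StrongSolutions

/-- The automorphism `a` of `Ω ⊇ F` is trivial on the image of `L` in `F`. -/
def Fixes (L : Type) {F Ω : Type} [Field L] [Field F] [Algebra L F] [Field Ω] (ι : F →+* Ω)
    (a : Ω ≃+* Ω) : Prop :=
  ∀ x : L, a (ι (algebraMap L F x)) = ι (algebraMap L F x)

/-- Every element of the subgroup `T` of `Gal(F/L)` is the restriction of an element of the group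
`A` of automorphisms of `Ω ⊇ F`. -/
def Induced {L F Ω : Type} [Field L] [Field F] [Algebra L F] [Field Ω] (ι : F →+* Ω)
    (A : Subgroup (Ω ≃+* Ω)) (T : Subgroup Gal(F/L)) : Prop :=
  ∀ σ ∈ T, ∃ a ∈ A, ∀ y : F, a (ι y) = ι (σ y)

/-- For every algebraically closed field `Ω` which contains `F`, every commutative group of
automorphisms of `Ω` over `L` induces a cyclic group on `F`. -/
def CommutativeCyclic (L F : Type) [Field L] [Field F] [Algebra L F] : Prop :=
  ∀ (Ω : Type) [Field Ω] [IsAlgClosed Ω] (ι : F →+* Ω) (A : Subgroup (Ω ≃+* Ω)),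
    (∀ a ∈ A, Fixes L ι a) → (∀ a ∈ A, ∀ b ∈ A, a * b = b * a) →
      ∀ T : Subgroup Gal(F/L), Induced ι A T → IsCyclic T

/-- For every algebraically closed field `Ω` which contains `F`: if `x` and `z` are automorphisms of
`Ω` over `L` with `x z x⁻¹ = z ^ r`, then the subgroups of prime power order of the group of
automorphisms of `F` over `L` induced by the group generated by `x` and `z` are cyclic (its Sylow
subgroups are cyclic). -/
def MetacyclicCyclic (L F : Type) [Field L] [Field F] [Algebra L F] : Prop :=
  ∀ (Ω : Type) [Field Ω] [IsAlgClosed Ω] (ι : F →+* Ω) (x z : Ω ≃+* Ω) (r : ℕ),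
    Fixes L ι x → Fixes L ι z → x * z * x⁻¹ = z ^ r → ∀ l : ℕ, l.Prime →
      ∀ T : Subgroup Gal(F/L), IsPGroup l T → Induced ι (Subgroup.closure {x, z}) T → IsCyclic T

/-- For every algebraically closed field `Ω` which contains `F` the automorphisms `c` of `Ω` over
`L` with `c ^ 2 = 1` are trivial on `F` (every ordering of `L` extends to `F`). -/
def InvolutionsTrivial (L F : Type) [Field L] [Field F] [Algebra L F] : Prop :=
  ∀ (Ω : Type) [Field Ω] [IsAlgClosed Ω] (ι : F →+* Ω) (c : Ω ≃+* Ω),
    (∀ w, c (c w) = w) → Fixes L ι c → ∀ y : F, c (ι y) = ι y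

/-- For every prime ideal `P` of the number field `F` over the prime number `p` and every prime
number `l ≠ p` the subgroups of `l`-power order of the decomposition group of `P` over `L` are
cyclic. -/
def LocallyCyclic (L F : Type) [Field L] [NumberField L] [Field F] [NumberField F]
    [Algebra L F] : Prop :=
  ∀ P : Ideal (𝓞 F), P.IsPrime → P ≠ ⊥ → ∀ p l : ℕ, p.Prime → (p : 𝓞 F) ∈ P → l.Prime → l ≠ p →
    ∀ T : Subgroup Gal(F/L), IsPGroup l T → (∀ σ ∈ T, ∀ x ∈ P, σ • x ∈ P) → IsCyclic T

/-- If the prime ideal `P` of `F` lies over the prime number `p` and the prime number `l ≠ p`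
divides the order of the inertia group of `P` over `L`, then `l ^ k` divides `N ^ n - 1`, where `N`
is the norm of the prime ideal of `L` below `P` and `n = [F : L]`. -/
def TameRestricted (L F : Type) [Field L] [NumberField L] [Field F] [NumberField F] [Algebra L F]
    (k : ℕ) : Prop :=
  ∀ P : Ideal (𝓞 F), P.IsPrime → P ≠ ⊥ → ∀ p l : ℕ, p.Prime → (p : 𝓞 F) ∈ P → l.Prime → l ≠ p →
    l ∣ Nat.card (P.inertia Gal(F/L)) →
      l ^ k ∣ Nat.card (𝓞 L ⧸ P.under (𝓞 L)) ^ Module.finrank L F - 1

/-- `F` is real and locally cyclic over `L`; if `L` and `F` are number fields, the conditions at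
the primes hold, too. -/
def RealAndLocallyCyclic (k : ℕ) (L F : Type) [Field L] [Field F] [Algebra L F] : Prop :=
  CommutativeCyclic L F ∧ MetacyclicCyclic L F ∧ InvolutionsTrivial L F ∧
    ∀ [NumberField L] [NumberField F], LocallyCyclic L F ∧ TameRestricted L F k

/-- `γ` is a proper solution of the embedding problem `α : G → Gal(L/K)` with solution field
`F`: it is compatible with restriction to `L`. -/
def IsSolution {K L G F : Type} [Field K] [Field L] [Algebra K L] [Group G]
    (α : G →* Gal(L/K)) [Field F] [Algebra K F] [Algebra L F] (γ : Gal(F/K) ≃* G) : Prop :=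
  ∀ (σ : Gal(F/K)) (x : L), σ (algebraMap L F x) = algebraMap L F (α (γ σ) x)

/-- The embedding problem `α` has a proper solution `F` such that the extension `F` of `L` has the
property `P`. -/
def HasSolution (K L G : Type) [Field K] [Field L] [Algebra K L] [Group G] (α : G →* Gal(L/K))
    (P : ∀ (F : Type) [Field F] [Algebra L F], Prop) : Prop :=
  ∃ (F : Type) (_ : Field F) (_ : Algebra K F) (_ : Algebra L F) (_ : IsScalarTower K L F)
    (_ : FiniteDimensional K F) (_ : IsGalois K F) (γ : Gal(F/K) ≃* G), IsSolution α γ ∧ P F

/-- The embedding problem `α` splits. -/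
def IsSplit {K L G : Type} [Field K] [Field L] [Algebra K L] [Group G] (α : G →* Gal(L/K)) : Prop :=
  ∃ s : Gal(L/K) →* G, ∀ x, α (s x) = x

/-- `α` has a proper solution. -/
def Solvable (K L G : Type) [Field K] [Field L] [Algebra K L] [Group G]
    (α : G →* Gal(L/K)) : Prop :=
  HasSolution K L G α (fun _ _ _ => True)

/-- `α` has a proper solution which is real and locally cyclic over `L`. -/
def StronglySolvable (k : ℕ) (K L G : Type) [Field K] [Field L] [Algebra K L] [Group G]
    (α : G →* Gal(L/K)) : Prop :=
  HasSolution K L G α (fun F _ _ => RealAndLocallyCyclic k L F)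

/-- There is an epimorphism `π : H → G` of finite groups with abelian kernel such that `α ∘ π` is
split and every proper solution of `α ∘ π` gives a strong solution of `α`. -/
def HasCover (k : ℕ) (K L G : Type) [Field K] [Field L] [Algebra K L] [Group G]
    (α : G →* Gal(L/K)) : Prop :=
  ∃ (H : Type) (_ : Group H) (_ : Finite H) (π : H →* G), Function.Surjective π ∧
    (∀ a b : H, π a = 1 → π b = 1 → a * b = b * a) ∧ IsSplit (α.comp π) ∧
    (Solvable K L H (α.comp π) → StronglySolvable k K L G α)

/-- Every finite split embedding problem over `K` has the property `Q`. -/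
def AllSplit (K : Type) [Field K] (Q : ∀ (L G : Type) [Field L] [Algebra K L] [Group G],
    (G →* Gal(L/K)) → Prop) : Prop :=
  ∀ (L G : Type) [Field L] [Algebra K L] [FiniteDimensional K L] [IsGalois K L] [Group G]
    [Finite G] (α : G →* Gal(L/K)), IsSplit α → Q L G α

end Pool.Agent.Results.MP_e9d732_al.StrongSolutions

namespace Pool.Agent.Results.MP_e9d732_al.StrongSolutions

open Run7.h456.IG

/-- the Galois group of the fixed field of the kernel of an epimorphism -/
theorem exists_gamma {K F' G : Type} [Field K] [Field F'] [Algebra K F'] [FiniteDimensional K F']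
    [IsGalois K F'] [Group G] (χ : Gal(F'/K) →* G) (hχ : Function.Surjective χ) :
    ∃ γ : Gal((IntermediateField.fixedField χ.ker : IntermediateField K F')/K) ≃* G,
      ∀ σ : Gal(F'/K), γ (AlgEquiv.restrictNormalHom
        (IntermediateField.fixedField χ.ker : IntermediateField K F') σ) = χ σ := by
  refine ⟨(IsGalois.normalAutEquivQuotient χ.ker).symm.trans
    (QuotientGroup.quotientKerEquivOfSurjective χ hχ), fun σ => ?_⟩
  rw [MulEquiv.trans_apply, ← IsGalois.normalAutEquivQuotient_apply, MulEquiv.symm_apply_apply]
  rfl

/-- subgroups of `Gal(F/L)` and of `Gal(F/K)` -/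
theorem cyclic_restrict {K L F : Type} [Field K] [Field L] [Algebra K L] [Field F] [Algebra K F]
    [Algebra L F] [IsScalarTower K L F] (T : Subgroup Gal(F/L))
    (h : IsCyclic (T.map (AlgEquiv.restrictScalarsHom K : Gal(F/L) →* Gal(F/K)))) :
    IsCyclic T := by
  have e4 := Subgroup.equivMapOfInjective T (AlgEquiv.restrictScalarsHom K : Gal(F/L) →* Gal(F/K))
    (AlgEquiv.restrictScalarsHom_injective K)
  exact isCyclic_of_surjective e4.symm.toMonoidHom e4.symm.surjective

/-- the degree of the solution field -/
theorem finrank_ker {K L G F : Type} [Field K] [Field L] [Algebra K L] [FiniteDimensional K L]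
    [IsGalois K L] [Group G] (α : G →* Gal(L/K)) (hα : Function.Surjective α) [Field F]
    [Algebra K F] [Algebra L F] [IsScalarTower K L F] [FiniteDimensional K F] [IsGalois K F]
    (γ : Gal(F/K) ≃* G) : Module.finrank L F = Nat.card α.ker := by
  have h1 : Nat.card G = Nat.card α.ker * Nat.card Gal(L/K) := by
    rw [Subgroup.card_eq_card_quotient_mul_card_subgroup α.ker, mul_comm]
    congr 1
    exact Nat.card_congr (QuotientGroup.quotientKerEquivOfSurjective α hα).toEquiv
  have h2 : Module.finrank K L * Module.finrank L F = Module.finrank K F :=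
    Module.finrank_mul_finrank K L F
  rw [← IsGalois.card_aut_eq_finrank K F, Nat.card_congr γ.toEquiv, h1,
    IsGalois.card_aut_eq_finrank K L, mul_comm] at h2
  exact Nat.eq_of_mul_eq_mul_right Module.finrank_pos h2

theorem strong_of {K L G : Type} [Field K] [Field L] [Algebra K L] [FiniteDimensional K L]
    [IsGalois K L] [Group G] [Finite G] (α : G →* Gal(L/K)) (s : Gal(L/K) →* G)
    (hs : ∀ x, α (s x) = x) [Fintype α.ker] [DecidableEq α.ker] (m : ℕ) [NeZero m] (k : ℕ)
    (hm1 : Nat.card α.ker ∣ m)
    (hm2 : ∀ l : ℕ, l.Prime → l ^ (3 * (Nat.card α.ker).factorization l) ∣ m)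
    (hm3 : 2 ∣ Fintype.card α.ker → 2 ∣ m)
    (hm4 : ∀ l : ℕ, l ∣ Nat.card α.ker → l ^ k ∣ m)
    (h : HasSolution K L (SP α s m) (α.comp (spMap α s m)) (fun _ _ _ => True)) :
    HasSolution K L G α (fun F _ _ => RealAndLocallyCyclic k L F) := by
  obtain ⟨F', i1, i2, i3, i4, i5, i6, γ', h1, -⟩ := h
  set χ : Gal(F'/K) →* G := (spMap α s m).comp γ'.toMonoidHom with hχ
  have hχs : Function.Surjective χ := (spMap_surjective α s m hs).comp γ'.surjective
  set F : IntermediateField K F' := IntermediateField.fixedField χ.ker with hF
  have hγ0 : ∃ γ : Gal(F/K) ≃* G, ∀ σ : Gal(F'/K),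
      γ (AlgEquiv.restrictNormalHom F σ) = χ σ := exists_gamma χ hχs
  obtain ⟨γ, hγ⟩ := hγ0
  have hLF : ∀ x : L, algebraMap L F' x ∈ F := by
    intro x
    rw [hF, IntermediateField.mem_fixedField_iff]
    intro σ hσ
    have e1 : χ σ = 1 := hσ
    have e2 : α.comp (spMap α s m) (γ' σ) = 1 := by
      show α (χ σ) = 1
      rw [e1, map_one]
    rw [h1, e2]
    rfl
  let iLF : Algebra L F := ((algebraMap L F').codRestrict F.toSubfield.toSubring hLF).toAlgebra
  have hcoe : ∀ x : L, ((algebraMap L F x : F) : F') = algebraMap L F' x := fun _ => rfl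
  have iT : IsScalarTower K L F := IsScalarTower.of_algebraMap_eq fun x => by
    apply Subtype.ext
    rw [hcoe, ← IsScalarTower.algebraMap_apply K L F']
    rfl
  have iT2 : IsScalarTower L F F' := IsScalarTower.of_algebraMap_eq fun x => rfl
  have h1' : ∀ σ x, σ (algebraMap L F' x) = algebraMap L F' ((γ' σ).right x) := by
    intro σ x
    have e1 := h1 σ x
    have e3 : α.comp (spMap α s m) (γ' σ) = (γ' σ).right := spMap_proj α s m hs _
    rw [e3] at e1
    exact e1
  have hZ : ∀ σ : Gal(F'/K),
      (∀ z ∈ Set.range (algebraMap L F), σ (z : F') = z) → (γ' σ).right = 1 := by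
    intro σ hσ
    ext x
    apply (algebraMap L F').injective
    have e1 := h1' σ x
    have e2 := hσ _ ⟨x, rfl⟩
    rw [hcoe] at e2
    rw [e2] at e1
    exact e1.symm
  have hK : ∀ {Ω : Type} [Field Ω] (ι : F →+* Ω) (a : Ω ≃+* Ω), Fixes L ι a →
      ∀ x : K, a (ι (algebraMap K F x)) = ι (algebraMap K F x) := by
    intro Ω _ ι a ha x
    rw [IsScalarTower.algebraMap_apply K L F]
    exact ha _
  refine ⟨F, inferInstance, inferInstance, iLF, iT, inferInstance, inferInstance, γ, ?_, ?_⟩
  · intro σ x
    obtain ⟨τ, rfl⟩ := AlgEquiv.restrictNormalHom_surjective (F := K) (K₁ := F) F' σ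
    apply Subtype.ext
    rw [hcoe, hγ]
    have e1 := h1 τ x
    rw [← hcoe] at e1
    exact (AlgEquiv.restrictNormalHom_apply F τ _).trans e1
  · refine ⟨?_, ?_, ?_, ?_⟩
    · intro Ω _ _ ι A hA1 hA2 T hT
      apply cyclic_restrict (K := K)
      refine field_comm α s m γ' F hF (Set.range (algebraMap L F)) hZ hm1 ι A hA2
        (fun a ha => hK ι a (hA1 a ha)) ?_ _ ?_
      · rintro a ha _ ⟨x, rfl⟩
        exact hA1 a ha x
      · rintro _ ⟨σ, hσ, rfl⟩
        exact hT σ hσ
    · intro Ω _ _ ι x z r hx hz hxz l hl T hTl hT
      have key : ∀ a ∈ Subgroup.closure {x, z}, Fixes L ι a := by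
        intro a ha
        induction ha using Subgroup.closure_induction with
        | mem a ha =>
          rcases ha with rfl | ha
          · exact hx
          · rw [Set.mem_singleton_iff] at ha
            subst ha
            exact hz
        | one => exact fun _ => rfl
        | mul a b _ _ iha ihb =>
          intro y
          show a (b _) = _
          rw [ihb, iha]
        | inv a _ iha =>
          intro y
          show a.symm _ = _
          rw [RingEquiv.symm_apply_eq, iha]
      apply cyclic_restrict (K := K)
      refine field_meta α s m γ' F hF (Set.range (algebraMap L F)) hZ l hl (hm2 l hl) ι x z r hxz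
        (fun a ha => hK ι a (key a ha)) ?_ _ (hTl.map _) ?_
      · rintro a ha _ ⟨y, rfl⟩
        exact key a ha y
      · rintro _ ⟨σ, hσ, rfl⟩
        exact hT σ hσ
    · intro Ω _ _ ι c hc hcF y
      refine field_real α s m γ' F hF (Set.range (algebraMap L F)) hZ hm3 ι c hc (hK ι c hcF) ?_ y
      rintro _ ⟨x, rfl⟩
      exact hcF x
    · intro iL iF
      have iK : NumberField K := by
        have hK0 : CharZero K := (RingHom.charZero_iff (algebraMap K L).injective).mpr iL.1
        have hK1 : FiniteDimensional ℚ K := FiniteDimensional.of_injective (V₂ := L)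
          ((algebraMap K L).toRatAlgHom.toLinearMap) (algebraMap K L).injective
        exact { to_charZero := hK0, to_finiteDimensional := hK1 }
      have iF' : NumberField F' := NumberField.of_module_finite K F'
      have hdeg : Module.finrank L F = Nat.card α.ker :=
        finrank_ker α (fun x => ⟨s x, hs x⟩) γ
      refine ⟨?_, ?_⟩
      · intro q hq hq0 p l hp hpq hl hlp T hT hTq
        exact rel_cyclic α s m γ' h1' F hF q hq hq0 p l hp hpq hl hlp (hm2 l hl) T hT hTq
      · intro q hq hq0 p l hp hpq hl hlp hl2
        rw [hdeg]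
        exact rel_tame α s m γ' h1' F hF q hq hq0 p l k hp hpq hl hlp (hm4 l) hl2

end Pool.Agent.Results.MP_e9d732_al.StrongSolutions

open Pool.Agent.Results.MP_e9d732_al.StrongSolutions in
theorem Pool.Agent.Results.MP_e9d732_al.StrongSolutions.result :
    ∀ (K : Type) [Field K],
    -- every split embedding problem has covers
    (∀ k : ℕ, AllSplit K (fun L G _ _ _ α => HasCover k K L G α)) ∧
    -- the solvability of all split embedding problems and its strong form
    (AllSplit K (fun L G _ _ _ α => Solvable K L G α) ↔
      ∀ k : ℕ, AllSplit K (fun L G _ _ _ α => StronglySolvable k K L G α)) := by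
  intro K _
  classical
  have main : ∀ k : ℕ, AllSplit K (fun L G _ _ _ α => HasCover k K L G α) := by
    intro k L G _ _ _ _ _ _ α hα
    obtain ⟨s, hs⟩ := hα
    have hft : Fintype α.ker := Fintype.ofFinite _
    have hpos : Nat.card α.ker ≠ 0 := Nat.card_pos.ne'
    have : NeZero (Nat.card α.ker ^ (k + 3)) := ⟨pow_ne_zero _ hpos⟩
    refine ⟨Run7.h456.IG.SP α s (Nat.card α.ker ^ (k + 3)), inferInstance, inferInstance,
      Run7.h456.IG.spMap α s _, Run7.h456.IG.spMap_surjective α s _ hs, ?_, ?_, ?_⟩
    · intro a b ha hb
      rw [Run7.h456.IG.spMap_ker α s _ hs] at ha hb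
      apply SemidirectProduct.ext
      · rw [Run7.h456.IG.sp_left_mul α s _ a b ha.1, Run7.h456.IG.sp_left_mul α s _ b a hb.1]
        exact Run7.h456.IG.Cov.ker_comm _ _ ha.2 hb.2
      · rw [SemidirectProduct.mul_right, SemidirectProduct.mul_right, ha.1, hb.1]
    · refine ⟨SemidirectProduct.inr, fun x => ?_⟩
      rw [MonoidHom.comp_apply, Run7.h456.IG.spMap_proj α s _ hs, SemidirectProduct.right_inr]
    · apply strong_of α s hs
      · exact dvd_pow_self _ (by omega)
      · intro l hl
        have e1 : l ^ (3 * (Nat.card α.ker).factorization l) =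
            (l ^ (Nat.card α.ker).factorization l) ^ 3 := by rw [← pow_mul, mul_comm]
        rw [e1]
        exact (pow_dvd_pow_of_dvd (Nat.ordProj_dvd _ _) 3).trans (pow_dvd_pow _ (by omega))
      · intro h2
        rw [Nat.card_eq_fintype_card]
        exact dvd_pow h2 (by omega)
      · intro l hl
        exact (pow_dvd_pow l (by omega)).trans (pow_dvd_pow_of_dvd hl (k + 3))
  refine ⟨main, ?_, ?_⟩
  · intro h k L G _ _ _ _ _ _ α hα
    obtain ⟨H, i1, i2, π, h1, h2, h3, h4⟩ := main k L G α hα
    exact h4 (h L H (α.comp π) h3)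
  · intro h L G _ _ _ _ _ _ α hα
    obtain ⟨F, i1, i2, i3, i4, i5, i6, γ, h1, -⟩ := h 0 L G α hα
    exact ⟨F, i1, i2, i3, i4, i5, i6, γ, h1, trivial⟩
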