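import Mathlib
import Pool.Agent.Run7.h16.UF.Main

/-!
# Hilbertian fields: a class of kernels closed under wreath products

`UnivF` (file `Pool/Agent/Run7/h16/UF/Def.lean`) is the smallest class of groups which

* contains the class `Univ` of the starting result `MP_dadaab_nt` UniversalKernels (for example `S_m`,
  `m ≥ 3`, `m ≠ 6`, and `G ≀ S_n` for `G ≠ 1` finite with trivial centre such that `Inn G` has a
  complement in `Aut G` and `n ≥ ((3 |G| + 2)!)^3`),
* contains `T ≀ S_n` for ALL `n ≥ 7` if it contains the nontrivial group `T`,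
* is closed under finite direct products, direct factors, characteristic extensions and
  isomorphisms.

The theorem, for every Hilbertian field `K` (of any characteristic, for example a number field):

1. Every embedding problem `α : G → Gal(L/K)`, split or not, whose kernel belongs to this class has a
   proper solution.
2. This applies to the kernels `(S_m)^k ≀ S_n` for all `m, n ≥ 7` and all `k ≥ 1`.
3. Towers: `StepF K` is the smallest class of homomorphisms which contains the class `Cls K` of the
   starting result `TwistedWreath` and all epimorphisms with kernel in `UnivF`, and is closed under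
   compositions and quotients. Let `L` be a finite Galois extension of `K` and
   `Gal(L/K) = W 0 ← W 1 ← W 2 ← ...` a sequence of homomorphisms in this class. Then `L` is contained
   in a Galois extension of `K` whose group is the inverse limit of the `W i`, compatibly with
   restriction to `L`.

In the class `Univ` of the starting result the wreath products `T ≀ S_n` have `n ≥ 2 (|T| + 2)`. The
new part is `n ≥ 7`: the automorphisms of `S_n`, `n ≥ 7`, are inner, and the base group of `T ≀ S_n`,
`n ≥ 5`, is characteristic (files `Pool/Agent/Run7/h16/UP/Aut.lean`, `Base.lean`).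
-/

set_option autoImplicit false

open Pool.Agent.H391R2 (Wr)
open Pool.Agent.H391R2.T4 (HilbField)
open Run7.h16.UF (UnivF StepF)

namespace Pool.Agent.Results.MP_e9d732_al.UniversalKernels

/-- The embedding problem `α` over `K` has a proper solution. -/
def HasProperSolution (K L G : Type) [Field K] [Field L] [Algebra K L] [Normal K L] [Group G]
    (α : G →* (L ≃ₐ[K] L)) : Prop :=
  ∃ (F : Type) (_ : Field F) (_ : Algebra K F) (_ : Algebra L F) (_ : IsScalarTower K L F),
    FiniteDimensional K F ∧ IsGalois K F ∧
    ∃ γ : (F ≃ₐ[K] F) ≃* G, ∀ σ : F ≃ₐ[K] F, α (γ σ) = σ.restrictNormal L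

/-- All embedding problems over Hilbertian fields, split or not, whose kernel is isomorphic to `T`
have proper solutions. -/
def UniversalKernel (T : Type) [Group T] : Prop :=
  ∀ (K L G : Type) [Field K] [Field L] [Algebra K L] [FiniteDimensional K L]
    [IsGalois K L] [Group G] (α : G →* (L ≃ₐ[K] L)), HilbField K → Function.Surjective α →
    Nonempty (α.ker ≃* T) → HasProperSolution K L G α

/-- The inverse limit of the sequence `W 0 ← W 1 ← W 2 ← ...`: the group of all sequences `x` with
`π i (x (i + 1)) = x i`. -/
abbrev InvLim {W : ℕ → Type} [∀ i, Group (W i)] (π : ∀ i, W (i + 1) →* W i) : Subgroup (∀ i, W i) :=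
  Pool.Agent.TH15.IGP.Lim π

/-- The defining property of the inverse limit. -/
theorem mem_invLim {W : ℕ → Type} [∀ i, Group (W i)] (π : ∀ i, W (i + 1) →* W i)
    (x : ∀ i, W i) : x ∈ InvLim π ↔ ∀ i, π i (x (i + 1)) = x i := Iff.rfl

/-- The embedding problem over `K` given by the finite Galois extension `L` of `K` and the
projection `x ↦ e₀ (x 0)` of the inverse limit of the `W i` to `Gal(L/K)` has a proper solution:
there are a Galois extension `F` of `K` containing `L` and an isomorphism `γ` of `Gal(F/K)` with the
inverse limit, all of whose components are continuous (have open kernel), such that the action on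
`L` is `σ ↦ e₀ (component of γ σ in W 0)`. -/
def ProperSolLim (K L : Type) [Field K] [Field L] [Algebra K L] {W : ℕ → Type} [∀ i, Group (W i)]
    (π : ∀ i, W (i + 1) →* W i) (e₀ : W 0 ≃* (L ≃ₐ[K] L)) : Prop :=
  ∃ (F : Type) (_ : Field F) (_ : Algebra K F) (_ : Algebra L F) (_ : IsScalarTower K L F)
    (_ : IsGalois K F) (γ : (F ≃ₐ[K] F) ≃* InvLim π),
    (∀ i, IsOpen {σ : F ≃ₐ[K] F | (γ σ).1 i = 1}) ∧
    ∀ (σ : F ≃ₐ[K] F) (x : L), σ (algebraMap L F x) = algebraMap L F (e₀ ((γ σ).1 0) x)

/-- All towers with steps in the class `StepF K` over Hilbertian fields `K` have proper solutions. -/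
def Towers : Prop :=
  ∀ (K L : Type) [Field K] [Field L] [Algebra K L] [FiniteDimensional K L]
    [IsGalois K L] (W : ℕ → Type) [∀ i, Group (W i)] (e₀ : W 0 ≃* (L ≃ₐ[K] L))
    (π : ∀ i, W (i + 1) →* W i), HilbField K → (∀ i, StepF K (π i)) → ProperSolLim K L π e₀

theorem result :
    -- 1. kernels in the class
    (∀ (T : Type) [Group T], UnivF T → UniversalKernel T) ∧
    -- 2. an instance
    (∀ m n k : ℕ, 7 ≤ m → 7 ≤ n → 1 ≤ k →
      UniversalKernel (Wr (Fin k → Equiv.Perm (Fin m)) n)) ∧
    -- 3. towers
    Towers := by
  have key : ∀ (T : Type) [Group T], UnivF T → UniversalKernel T :=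
    fun T _ hT K L G _ _ _ _ _ _ α hK hα hι => hT.hil K hK L G α hα hι
  refine ⟨key, ?_, ?_⟩
  · intro m n k hm hn hk
    have h1 : Nontrivial (Fin m) := ⟨⟨⟨0, by omega⟩, ⟨1, by omega⟩, by simp⟩⟩
    have h2 : Nonempty (Fin k) := ⟨⟨0, by omega⟩⟩
    refine key _ (UnivF.power _ (UnivF.prod _ _ fun i => UnivF.univ _ ?_) n hn)
    refine Pool.Agent.N600.UK.Univ.complete _ ?_ (Run7.h16.UP.aut_inner hm)
      (fun K _ _ => Pool.Agent.N600.UK.regularOver_perm K m)
    rw [eq_bot_iff]
    intro z hz
    refine Run7.h16.UP.eq_one_of_cent (by omega) z fun g _ => ?_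
    exact (Subgroup.mem_center_iff.1 hz g).symm
  · intro K L _ _ _ _ _ W _ e₀ π hK hπ
    exact Run7.h16.UF.stepF_hilb hK W π hπ L e₀

end Pool.Agent.Results.MP_e9d732_al.UniversalKernels
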