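import Mathlib
import Pool.Agent.Run7.h16.UP.Main
import Pool.Agent.Run7.h16.UP.PGrp

/-!
# Hilbertian fields of characteristic `p`: a class of kernels closed under wreath products

`UnivP p` (file `Pool/Agent/Run7/h16/UP/Def.lean`) is the smallest class of groups which

* contains the class `Univ` of the starting result `MP_dadaab_nt` UniversalKernels,
* contains all finite groups all of whose composition factors satisfy `Factor p` (the class of the
  starting result `DefiningChar` on this page: groups of order `p`, `PSL_2(p ^ k)` with `p ^ k ≥ 4`
  and `p = 2` or `k` odd, `PSL_n(p ^ k)` with `n ≥ 3` prime to `p ^ k - 1`, `PSp_2n(p ^ k)`, ...),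
* contains the complete groups which are regular over the infinite fields of characteristic `p`,
* contains the wreath products `G ≀ S_n` of ALL finite groups `G` all of whose composition factors
  satisfy `Factor p` (for example all finite `p`-groups) and all `n ≥ 7`,
* contains the wreath products `T ≀ S_n` for all `n ≥ 7` if it contains the group `T` and the centre
  of `T` is trivial,
* is closed under direct products of groups with trivial centre, direct factors, characteristic
  extensions and isomorphisms.

The theorem, for every Hilbertian field `K` of characteristic `p > 0`: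

1. Every embedding problem `α : G → Gal(L/K)`, split or not, whose kernel belongs to this class has a
   proper solution.
2. This applies to the kernels `H ≀ S_n` for every finite group `H` all of whose composition factors
   satisfy `Factor p`, in particular for every finite `p`-group `H`, and all `n ≥ 7`.
3. Towers: `StepP p K` is the smallest class of homomorphisms which contains the class `Step p K` of
   `DefiningChar` and all epimorphisms with kernel in `UnivP p`, and is closed under compositions and
   quotients. Let `L` be a finite Galois extension of `K` and `Gal(L/K) = W 0 ← W 1 ← W 2 ← ...` a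
   sequence of homomorphisms in this class. Then `L` is contained in a Galois extension of `K` whose
   group is the inverse limit of the `W i`, compatibly with restriction to `L`.

New compared with the two starting results is that the two classes can be mixed, and above all the
closure under wreath products. The groups `G ≀ S_n` of 2. are not in the class of `DefiningChar` (the
composition factors of `S_n` are not of characteristic `p`), and a group of the class `Univ` has
trivial centre and consists of wreath products with `n ≥ ((3 |G| + 2)!)^3` or of groups which are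
regular over all infinite fields. The proof uses that the automorphisms of `S_n`, `n ≥ 7`, are inner
and that the base group of `T ≀ S_n`, `n ≥ 5`, is characteristic (files `Aut`, `Base`).
-/

set_option autoImplicit false

open Pool.Agent.H391R2 (Wr)
open Pool.Agent.H391R2.T4 (HilbField)
open Pool.Agent.Y60.DC (CompIn)
open Pool.Agent.Y60.DCF (Factor)
open Run7.h16.UP (UnivP StepP)

namespace Pool.Agent.Results.MP_e9d732_al.UniversalKernelsDefiningChar

/-- The embedding problem `α` over `K` has a proper solution. -/
def HasProperSolution (K L G : Type) [Field K] [Field L] [Algebra K L] [Normal K L] [Group G]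
    (α : G →* (L ≃ₐ[K] L)) : Prop :=
  ∃ (F : Type) (_ : Field F) (_ : Algebra K F) (_ : Algebra L F) (_ : IsScalarTower K L F),
    FiniteDimensional K F ∧ IsGalois K F ∧
    ∃ γ : (F ≃ₐ[K] F) ≃* G, ∀ σ : F ≃ₐ[K] F, α (γ σ) = σ.restrictNormal L

/-- All embedding problems over Hilbertian fields of characteristic `p`, split or not, whose kernel is
isomorphic to `T` have proper solutions. -/
def UniversalKernel (p : ℕ) (T : Type) [Group T] : Prop :=
  ∀ (K L G : Type) [Field K] [CharP K p] [Field L] [Algebra K L] [FiniteDimensional K L]
    [IsGalois K L] [Group G] (α : G →* (L ≃ₐ[K] L)), HilbField K → Function.Surjective α →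
    Nonempty (α.ker ≃* T) → HasProperSolution K L G α

/-- The inverse limit of the sequence `W 0 ← W 1 ← W 2 ← ...`: the group of all sequences `x` with
`π i (x (i + 1)) = x i`. -/
abbrev InvLim {W : ℕ → Type} [∀ i, Group (W i)] (π : ∀ i, W (i + 1) →* W i) : Subgroup (∀ i, W i) :=
  Pool.Agent.TH15.IGP.Lim π

/-- The defining property of the inverse limit. -/
theorem mem_invLim {W : ℕ → Type} [∀ i, Group (W i)] (π : ∀ i, W (i + 1) →* W i)
    (x : ∀ i, W i) : x ∈ InvLim π ↔ ∀ i, π i (x (i + 1)) = x i := Iff.rfl

/-- The embedding problem over `K` given by the finite Galois extension `L` of `K` and the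
projection `x ↦ e₀ (x 0)` of the inverse limit of the `W i` to `Gal(L/K)` has a proper solution:
there are a Galois extension `F` of `K` containing `L` and an isomorphism `γ` of `Gal(F/K)` with the
inverse limit, all of whose components are continuous (have open kernel), such that the action on
`L` is `σ ↦ e₀ (component of γ σ in W 0)`. -/
def ProperSolLim (K L : Type) [Field K] [Field L] [Algebra K L] {W : ℕ → Type} [∀ i, Group (W i)]
    (π : ∀ i, W (i + 1) →* W i) (e₀ : W 0 ≃* (L ≃ₐ[K] L)) : Prop :=
  ∃ (F : Type) (_ : Field F) (_ : Algebra K F) (_ : Algebra L F) (_ : IsScalarTower K L F)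
    (_ : IsGalois K F) (γ : (F ≃ₐ[K] F) ≃* InvLim π),
    (∀ i, IsOpen {σ : F ≃ₐ[K] F | (γ σ).1 i = 1}) ∧
    ∀ (σ : F ≃ₐ[K] F) (x : L), σ (algebraMap L F x) = algebraMap L F (e₀ ((γ σ).1 0) x)

/-- All towers with steps in the class `StepP p K` over Hilbertian fields `K` of characteristic `p`
have proper solutions. -/
def Towers (p : ℕ) [Fact p.Prime] : Prop :=
  ∀ (K L : Type) [Field K] [CharP K p] [Field L] [Algebra K L] [FiniteDimensional K L]
    [IsGalois K L] (W : ℕ → Type) [∀ i, Group (W i)] (e₀ : W 0 ≃* (L ≃ₐ[K] L))
    (π : ∀ i, W (i + 1) →* W i), HilbField K → (∀ i, StepP p K (π i)) → ProperSolLim K L π e₀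

theorem result : ∀ (p : ℕ) [Fact p.Prime],
    -- 1. kernels in the class
    (∀ (T : Type) [Group T], UnivP p T → UniversalKernel p T) ∧
    -- 2. wreath products
    (∀ (H : Type) [Group H] [Finite H], (CompIn (Factor p) H ∨ IsPGroup p H) →
      ∀ n : ℕ, 7 ≤ n → UniversalKernel p (Wr H n)) ∧
    -- 3. towers
    Towers p := by
  intro p _
  have key : ∀ (T : Type) [Group T], UnivP p T → UniversalKernel p T :=
    fun T _ hT K L G _ _ _ _ _ _ _ α hK hα hι =>
      hT.proper K (Pool.Agent.TH377.IG.spec_hilb hK) L G α hα hι
  refine ⟨key, ?_, ?_⟩
  · intro H _ _ hH n hn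
    refine key _ (UnivP.wreath H ?_ n hn)
    rcases hH with hH | hH
    · exact hH
    · exact Run7.h16.UP.compIn_of_pgroup H hH
  · intro K L _ _ _ _ _ _ W _ e₀ π hK hπ
    exact Run7.h16.UP.stepP_hilb hK W π hπ L e₀

end Pool.Agent.Results.MP_e9d732_al.UniversalKernelsDefiningChar
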